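import Mathlib
import Pool.Agent.H520R2.NMDefs
import Pool.Agent.J6H11.NegClq.Final

/-!
# The clique problem needs `log₂ N - O(log log N)` NOT gates

We consider circuits of AND and OR gates of fan-in two and arbitrary further gates, the `i`-th of
them with `w i` input wires (for instance `w i = 1` for a NOT gate), that get a graph with `n`
vertices, i.e. `N = n * (n - 1) / 2` input bits. By Markov and Fischer, `log₂ (N + 1)` (rounded up)
NOT gates suffice for all functions with circuits of polynomial size.

* The trade-off. Let `2 ≤ s ≤ k` and `n ≤ 2 ^ s`. There is a distribution (uniform on a finite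
  family) on graphs with `n` vertices that have a clique of `k + g` vertices or have no clique of `k`
  vertices, such that every circuit with `(s + g) ^ 30 * ∏ (w i + 1) ≤ (n - k) ^ 2` and less than
  `2 ^ s` gates tells the two cases apart with probability less than `1 / 2 + 1 / s`.
* The same for randomised circuits: they err with probability more than `1 / 2 - 1 / s` on some
  graph.
* For all `A ≥ 1`, all large `n` and all `k` between `(log₂ n) ^ A` and `n / 2` (for example
  `k = n / 2`, which is NP-complete), circuits that decide whether there is a clique of `k` vertices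
  need `2 ^ ((log₂ n) ^ A)` gates if
  `log₂ (∏ (w i + 1)) ≤ log₂ N - 31 * A * log₂ (log₂ N)`, in particular if there are at most
  `log₂ N - 31 * A * log₂ (log₂ N)` NOT gates (and no other non-monotone gates).

Proof. The points of part `i` are the triples of a polynomial `V` of degree less than `R` over a
finite field `F`, an element of `F`, and a number, and the blocks are the pairs `(A, B)` of such
polynomials: they contain the points `(A + x i * B, B (x i), c)`. Any two points are in at most one
block, and if any two points of a set of more than `R` points of different parts are in a common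
block, then all are in one block, since the values `B (x i)` determine `B`. So there are
`N / polylog N` independent copies of the clique problem in one graph, although every pair of
vertices is used by one of them only. Razborov's method (with a gap, and on average) gives the
bound for one copy and monotone circuits, and the chain argument of Jukna and Markov, on average,
removes the non-monotone gates.
-/

set_option autoImplicit false

namespace Pool.Agent.Results.MP_994c82_lc.CliqueNegations

open Finset Filter Pool.Agent.H520R2.NM Pool.Agent.J6H11.NegClq

open Classical in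
/-- **The trade-off between the size and the number of NOT gates, for the clique problem.** -/
theorem result :
    (∀ n k g s : ℕ, 2 ≤ s → s ≤ k → n ≤ 2 ^ s →
      -- one distribution is hard for all circuits
      (∃ (Λ : Type) (_ : Fintype Λ) (_ : Nonempty Λ) (x : Λ → Sym2 (Fin n) → Bool),
        (∀ l, HasClique n (k + g) (x l) ∨ ¬ HasClique n k (x l)) ∧
        ∀ (N : ℕ) (C : Circuit (Sym2 (Fin n)) N) (out : Wire (Sym2 (Fin n)) N),
          (s + g) ^ 30 * (C.fanins.map (· + 1)).prod ≤ (n - k) ^ 2 →
          C.size + C.fanins.sum < 2 ^ s →
          ((univ.filter (fun l => (out.eval (x l) (C.vals (x l)) = true ↔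
            HasClique n (k + g) (x l)))).card : ℝ) < (1 / 2 + 1 / s) * Fintype.card Λ) ∧
      -- randomised circuits err on some graph
      ∀ (Ω : Type) [Fintype Ω] (w : Ω → ℝ), (∀ r, 0 ≤ w r) → ∑ r, w r = 1 →
        ∀ (N : Ω → ℕ) (C : ∀ r, Circuit (Sym2 (Fin n)) (N r))
          (out : ∀ r, Wire (Sym2 (Fin n)) (N r)),
          (∀ r, (s + g) ^ 30 * ((C r).fanins.map (· + 1)).prod ≤ (n - k) ^ 2) →
          (∀ r, (C r).size + (C r).fanins.sum < 2 ^ s) →
          ∃ x : Sym2 (Fin n) → Bool, (HasClique n (k + g) x ∨ ¬ HasClique n k x) ∧
            ∑ r ∈ univ.filter (fun r => ((out r).eval x ((C r).vals x) = true ↔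
              HasClique n (k + g) x)), w r < 1 / 2 + 1 / s) ∧
    -- `log₂ N - O(log log N)` NOT gates do not suffice
    ∀ A : ℝ, 1 ≤ A → ∀ᶠ n : ℕ in atTop, ∀ k : ℕ, Real.logb 2 n ^ A ≤ k → 2 * k ≤ n →
      ∀ (N : ℕ) (C : Circuit (Sym2 (Fin n)) N) (out : Wire (Sym2 (Fin n)) N),
        (∀ x, out.eval x (C.vals x) = true ↔ HasClique n k x) →
        Real.logb 2 ((C.fanins.map (· + 1)).prod : ℕ) ≤ Real.logb 2 (n.choose 2) -
          31 * A * Real.logb 2 (Real.logb 2 (n.choose 2)) →
        (2 : ℝ) ^ (Real.logb 2 n ^ A) ≤ (C.size + C.fanins.sum : ℕ) :=
  ⟨fun n k g s hs hk hn => ⟨clique_avg n k g s hs hk hn,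
    fun Ω _ w hw hw1 N C out h1 h2 => clique_rand n k g s hs hk hn Ω w hw hw1 N C out h1 h2⟩,
    clique_log⟩

end Pool.Agent.Results.MP_994c82_lc.CliqueNegations
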