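import Pool.Agent.J6H7.Chain.LFin

/-!
# Directed reachability: the tradeoff between non-monotone questions and the size

The devices are monotone undirected networks (nonuniform logarithmic space) and monotone span
programs. They are used by a strategy, which may ask few non-monotone questions, or else few
variables are negated in a network. Reachability in the subgraphs of certain directed graphs with
`n` vertices and `n` edges needs size `2 ^ (d ^ 2 + 7 d) / n` if the number of the outcomes of the
non-monotone questions (the product of the numbers `w + 1` over the rounds of `w` questions) is at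
most `n / 32 ^ d`, for every `d ≥ 1` with `32 ^ d ≤ n`.

For example, `d = a √(log₂ n)`: with `log₂ n - 5 a √(log₂ n)` adaptive questions the size is at
least `n ^ (a ^ 2 - 1)`, which is superpolynomial if `a` tends to infinity. With `log₂ (n + 1)`
questions all negations can be simulated.
-/

set_option autoImplicit false

namespace Pool.Agent.Results.MP_994c82_lc.LogspaceTradeoff

open Pool.Agent.J6H7.Chain Filter

/-- `F` needs size `b` (up to one wire in the second case)

* for every strategy over monotone span programs over a field, and for every strategy over monotone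
  undirected networks, in which the product of the numbers `w + 1` over all the rounds of `w`
  questions is at most `P`,
* for every undirected network in which fewer than `P` variables are negated. -/
def LogHard (P : ℕ) (b : ℝ) {ι : Type} (F : (ι → Bool) → Prop) : Prop :=
  (∀ l : List ℕ, (l.map (· + 1)).prod ≤ P → ∀ s : ℕ,
    (∀ (K κ : Type) [Field K] (S : Strategy (Span K κ ι) l), S.All (fun d => d.size ≤ s) →
      (∀ x, S.run Span.Accepts x ↔ F x) → b ≤ s) ∧
    (∀ (V : Type) (S : Strategy (Net V ι) l), S.All (fun d => d.size ≤ s) →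
      (∀ x, S.run Net.Undirected x ↔ F x) → b ≤ s)) ∧
  (∀ (V : Type) (N : Net V (ι ⊕ ι)) (Z : Finset ι), Z.card < P →
    (∀ e ∈ N.wires, ∀ i, e.2.2 = Sum.inr i → i ∈ Z) → (∀ x, N.Undirected (lit x) ↔ F x) →
    b ≤ N.size + 1)

theorem size_of {n d P L s : ℕ} (hn : 0 < n) (hP : P * 32 ^ d ≤ n) (hL : L ≤ P)
    (h : 2 ^ (d * d + 2 * d) ≤ L * s) : (2 : ℝ) ^ (d ^ 2 + 7 * d) / n ≤ s := by
  have hn' : (0 : ℝ) < n := by exact_mod_cast hn
  rw [div_le_iff₀ hn']
  have h1 : 2 ^ (d ^ 2 + 7 * d) ≤ s * n := by
    calc 2 ^ (d ^ 2 + 7 * d) = 2 ^ (d * d + 2 * d) * 32 ^ d := by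
          rw [show (32 : ℕ) = 2 ^ 5 by norm_num, ← pow_mul, ← pow_add]
          congr 1
          ring
      _ ≤ (P * s) * 32 ^ d := Nat.mul_le_mul_right _ (h.trans (Nat.mul_le_mul_right _ hL))
      _ = s * (P * 32 ^ d) := by ring
      _ ≤ s * n := Nat.mul_le_mul_left _ hP
  exact_mod_cast h1

/-- **Directed reachability: non-monotone questions versus size.** For all `n` and `d ≥ 1` with
`32 ^ d ≤ n` there is a directed graph with `n` vertices and `n` edges such that the question
whether there is a path from `s` to `t` in a given subgraph is hard in the sense of `LogHard`: with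
at most `n / 32 ^ d` outcomes of the non-monotone questions the size is at least
`2 ^ (d ^ 2 + 7 d) / n`. -/
theorem result (n d : ℕ) (hd : 1 ≤ d) (hn : 32 ^ d ≤ n) :
    ∃ (E : Fin n → Fin n × Fin n) (s t : Fin n), Function.Injective E ∧
      LogHard (n / 32 ^ d) ((2 : ℝ) ^ (d ^ 2 + 7 * d) / n) (Reach E s t) := by
  obtain ⟨P, hP⟩ : ∃ P, P = n / 32 ^ d := ⟨_, rfl⟩
  have hPn : P * 32 ^ d ≤ n := by
    rw [hP]
    exact Nat.div_mul_le_self n (32 ^ d)
  have hn32 : 32 ≤ n := by
    calc 32 = 32 ^ 1 := by norm_num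
      _ ≤ 32 ^ d := Nat.pow_le_pow_right (by norm_num) hd
      _ ≤ n := hn
  rw [← hP]
  obtain ⟨D, hD⟩ : ∃ D, D = 2 ^ d := ⟨_, rfl⟩
  have hD2 : 2 ≤ D := by
    rw [hD]
    calc 2 = 2 ^ 1 := by norm_num
      _ ≤ 2 ^ d := Nat.pow_le_pow_right (by norm_num) hd
  have hD5 : 32 ^ d = D ^ 5 := by
    rw [hD, show (32 : ℕ) = 2 ^ 5 by norm_num, ← pow_mul, ← pow_mul, mul_comm]
  have hel : P * D ^ 3 + 2 ≤ n := by
    have h1 : P * D ^ 3 * 4 ≤ n := by
      calc P * D ^ 3 * 4 = P * (D ^ 3 * 2 ^ 2) := by ring
        _ ≤ P * (D ^ 3 * D ^ 2) :=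
          Nat.mul_le_mul_left _ (Nat.mul_le_mul_left _ (Nat.pow_le_pow_left hD2 2))
        _ = P * 32 ^ d := by rw [hD5]; ring
        _ ≤ n := hPn
    omega
  have hM : D - 1 + 1 = 2 ^ d := by
    rw [← hD]
    omega
  have hMD : D - 1 + 1 = D := by omega
  have hk : 2 ≤ D ^ 2 := by nlinarith
  obtain ⟨φ, hφ⟩ := exists_nodes (P := P) (M := D - 1) (k := D ^ 2) (n := n)
    (by rw [hMD]; exact le_trans (le_of_eq (by ring)) hel)
  obtain ⟨e, he⟩ := exists_edges (P := P) (M := D - 1) (k := D ^ 2) (n := n) hk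
    (by rw [hMD]; refine le_trans (le_of_eq ?_) hPn; rw [hD5]; ring)
  have hkd : D ^ 2 = (2 ^ d) ^ 2 := by rw [hD]
  have hF := reach_iff φ e hφ he
  refine ⟨ledges φ e, φ .src, φ .tgt, ledges_injective φ e hφ he, ?_, ?_⟩
  · intro l hl s
    refine ⟨?_, ?_⟩
    · intro K κ _ S hS hrun
      exact size_of (by omega) hPn ((sum_succ_le_prod l).trans hl)
        (layered_span hM hkd _ (lσ e) hF hl S hS hrun)
    · intro V S hS hrun
      exact size_of (by omega) hPn ((sum_succ_le_prod l).trans hl)
        (layered_undirected hM hkd _ (lσ e) hF hl S hS hrun)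
  · intro V N Z hZ hNZ hrun
    have h1 := size_of (by omega) hPn (Nat.succ_le_of_lt hZ)
      (layered_lit hM hkd _ (lσ e) hF N Z hNZ hZ hrun)
    exact_mod_cast h1

end Pool.Agent.Results.MP_994c82_lc.LogspaceTradeoff
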