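import Pool.Agent.J6H7.Chain.GFin

/-!
# Path systems: the tradeoff between non-monotone questions and the size of networks

The devices are monotone directed networks (nonuniform nondeterministic logarithmic space). They
are used by a strategy, which may ask few non-monotone questions, or else few variables are negated
in a network. Derivability in certain path systems with `n` elements and `n` rules, which is
computed by a monotone circuit with at most `3 * n` gates, needs size `2 ^ (√g - 2)` if the number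
of the outcomes of the non-monotone questions (the product of the numbers `w + 1` over the rounds of
`w` questions) is at most `n / g ^ 14`, for every `g` between `log₂ n` and `n ^ (1 / 14)`.

For example, `g = (log₂ n) ^ (2 A + 1)`: with `log₂ n - O(log log n)` adaptive questions the size is
at least `2 ^ ((log₂ n) ^ A)`. With `log₂ (n + 1)` questions all negations can be simulated.
-/

set_option autoImplicit false

namespace Pool.Agent.Results.MP_994c82_lc.PathSystemsTradeoff

open Pool.Agent.J6H7.Chain Pool.Agent.H520R2 Pool.Agent.H520R2.NM Filter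

/-- `F` needs size `b`

* for every strategy over monotone directed networks in which the product of the numbers `w + 1`
  over all the rounds of `w` questions is at most `P`,
* for every directed network in which fewer than `P` variables are negated. -/
def NLHard (P : ℕ) (b : ℝ) {ι : Type} (F : (ι → Bool) → Prop) : Prop :=
  (∀ l : List ℕ, (l.map (· + 1)).prod ≤ P →
    ∀ (s : ℕ) (V : Type) (S : Strategy (Net V ι) l), S.All (fun d => d.size ≤ s) →
      (∀ x, S.run Net.Directed x ↔ F x) → b ≤ s) ∧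
  (∀ (V : Type) (N : Net V (ι ⊕ ι)) (Z : Finset ι), Z.card < P →
    (∀ e ∈ N.wires, ∀ i, e.2.2 = Sum.inr i → i ∈ Z) → (∀ x, N.Directed (lit x) ↔ F x) →
    b ≤ N.size)

theorem size_of {n g L s : ℕ} (hL : L ≤ n) (hn : n ≤ 2 ^ g)
    (h : 2 ^ (2 * g + 2) ≤ L * 2 ^ ((Nat.clog 2 (s + 1) + 2) * Nat.clog 2 (s + 1))) :
    (2 : ℝ) ^ (Real.sqrt g - 2) ≤ s := by
  obtain ⟨j, hj⟩ : ∃ j, j = Nat.clog 2 (s + 1) := ⟨_, rfl⟩
  rw [← hj] at h
  have h1 : 2 ^ (2 * g + 2) ≤ 2 ^ (g + (j + 2) * j) := by
    calc 2 ^ (2 * g + 2) ≤ L * 2 ^ ((j + 2) * j) := h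
      _ ≤ 2 ^ g * 2 ^ ((j + 2) * j) := Nat.mul_le_mul_right _ (hL.trans hn)
      _ = _ := (pow_add _ _ _).symm
  have h2 : g + 2 ≤ (j + 2) * j := by
    have := (Nat.pow_le_pow_iff_right (by norm_num : 1 < 2)).1 h1
    omega
  have h3 : Real.sqrt g ≤ j + 1 := by
    have h4 : (g : ℝ) ≤ ((j : ℝ) + 1) ^ 2 := by
      have h5 : g ≤ (j + 1) ^ 2 := by nlinarith
      exact_mod_cast h5
    calc Real.sqrt g ≤ Real.sqrt (((j : ℝ) + 1) ^ 2) := Real.sqrt_le_sqrt h4
      _ = (j : ℝ) + 1 := Real.sqrt_sq (by positivity)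
  have hj0 : j ≠ 0 := by
    rintro rfl
    omega
  have hs : 1 ≤ s := by
    by_contra hcon
    have : s = 0 := by omega
    subst this
    simp at hj
    exact hj0 hj
  have h6 : 2 ^ (j - 1) ≤ s := by
    have h7 : 2 ^ (j - 1) < s + 1 := by
      rw [hj]
      exact Nat.pow_pred_clog_lt_self (by norm_num) (by omega)
    omega
  have h8 : ((2 ^ (j - 1) : ℕ) : ℝ) ≤ s := by exact_mod_cast h6
  refine le_trans ?_ h8
  push_cast
  rw [← Real.rpow_natCast]
  apply Real.rpow_le_rpow_of_exponent_le (by norm_num)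
  have h9 : ((j - 1 : ℕ) : ℝ) = (j : ℝ) - 1 := by
    rw [Nat.cast_sub (by omega)]
    simp
  rw [h9]
  linarith

open Classical in
/-- **Path systems: non-monotone questions versus size.** For all `n` and `g ≥ 2` with `n ≤ 2 ^ g` and
`g ^ 14 ≤ n` there is a path system with `n` elements and `n` different rules such that the question
whether `t` can be derived from `s` with a given set of the rules

* is answered by a monotone circuit with at most `3 * n` gates of fan-in two,
* is hard in the sense of `NLHard`: with at most `n / g ^ 14` outcomes of the non-monotone questions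
  the size is at least `2 ^ (√g - 2)`. -/
theorem result (n g : ℕ) (hg2 : 2 ≤ g) (hg : n ≤ 2 ^ g) (hn : g ^ 14 ≤ n) :
    ∃ (R : Fin n → Fin n × Fin n × Fin n) (s t : Fin n), Function.Injective R ∧
      MComp (VB (Fin n)) (3 * n) (fun x => decide (Derive R s t x)) ∧
      NLHard (n / g ^ 14) ((2 : ℝ) ^ (Real.sqrt g - 2)) (Derive R s t) := by
  obtain ⟨P, hP⟩ : ∃ P, P = n / g ^ 14 := ⟨_, rfl⟩
  have hPn : P * g ^ 14 ≤ n := by
    rw [hP]
    exact Nat.div_mul_le_self n (g ^ 14)
  have hn4 : 16384 ≤ n := by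
    calc 16384 = 2 ^ 14 := by norm_num
      _ ≤ g ^ 14 := Nat.pow_le_pow_left hg2 14
      _ ≤ n := hn
  have hPle : P ≤ n := by
    rw [hP]
    exact Nat.div_le_self _ _
  have hel : P * g ^ 6 + 2 ≤ n := by
    have h1 : P * g ^ 6 * 256 ≤ n := by
      calc P * g ^ 6 * 256 = P * (g ^ 6 * 2 ^ 8) := by ring
        _ ≤ P * (g ^ 6 * g ^ 8) :=
          Nat.mul_le_mul_left _ (Nat.mul_le_mul_left _ (Nat.pow_le_pow_left hg2 8))
        _ = P * g ^ 14 := by ring
        _ ≤ n := hPn
    omega
  rw [← hP]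
  obtain ⟨G, rfl⟩ : ∃ G, g = G + 1 := ⟨g - 1, by omega⟩
  have hG1 : 1 ≤ G := by omega
  have hk : 2 ≤ ((G + 1) * (G + 1)) ^ 2 := by
    have h3 : 2 ≤ (G + 1) * (G + 1) := by nlinarith
    nlinarith
  obtain ⟨φ, hφ⟩ := exists_gnodes (P := P) (G := G)
    (k := ((G + 1) * (G + 1)) ^ 2) (n := n) (le_trans (le_of_eq (by ring)) hel)
  obtain ⟨e, he⟩ := exists_grules (P := P) (G := G)
    (k := ((G + 1) * (G + 1)) ^ 2) (n := n) hk (le_trans (le_of_eq (by ring)) hPn)
  refine ⟨grules φ e, φ .src, φ .tgt, grules_injective φ e hφ he, derive_circuit φ e hφ he,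
    ?_, ?_⟩
  · intro l hl s V S hS hrun
    have h1 := grid_directed hG1 rfl _ (gσ e) (derive_iff φ e hφ he) hl S hS hrun
    refine size_of (L := l.sum + 1) ((sum_succ_le_prod l).trans (hl.trans hPle)) hg ?_
    refine le_trans (le_of_eq ?_) h1
    ring
  · intro V N Z hZ hNZ hrun
    have h1 := grid_lit hG1 rfl _ (gσ e) (derive_iff φ e hφ he) N Z hNZ hZ hrun
    refine size_of (L := Z.card + 1) ((Nat.succ_le_of_lt hZ).trans hPle) hg ?_
    refine le_trans (le_of_eq ?_) h1
    ring

end Pool.Agent.Results.MP_994c82_lc.PathSystemsTradeoff
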