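import Pool.Agent.J6H84.TEP.Bounds
import Pool.Agent.J6H84.TEP.Count

/-!
# Thrifty branching programs for the Tree Evaluation Problem

The Tree Evaluation Problem of height `h` over an alphabet with `k` letters was introduced by Cook,
McKenzie, Wehr, Braverman and Santhanam as a candidate for a problem in P which is neither in L nor
in NL, and the number of states of its thrifty branching programs is the quantity which is studied
for this purpose.  Deterministic thrifty programs need `k ^ h` states.  We show that nondeterministic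
thrifty programs are much smaller, even if they are unambiguous.  The definitions of the problem, of
branching programs, and of thrifty programs are in `Pool/Agent/J6H84/TEP/Model.lean`.
-/

namespace Pool.Agent.Results.MP_994c82_lc.ThriftyTreeEvaluation

open Pool.Agent.J6H84.TEP

/-- Let `2 ≤ h` and `2 ≤ k`.

* There is a nondeterministic thrifty `k`-way branching program with at most
  `k ^ 20 * 2 ^ (38 h + 15 (h l log (1 + l)) ^ (1 / 2))` states, where `l = log k` and the logarithms
  are to the base two, which solves the Tree Evaluation Problem of height `h`, and which is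
  unambiguous: on every input it has exactly one computation from the start state to a final state.
* For a fixed height `h` and every `ε > 0` there is such a program with at most `k ^ (5 + ε)` states
  if `k` is sufficiently large.
* Every deterministic thrifty program for this problem has at least `k ^ h` states. -/
theorem result :
    (∀ h k : ℕ, 2 ≤ h → 2 ≤ k → ∃ (S : Type) (_ : Fintype S) (P : Program k S),
      P.Solves h ∧ P.IsThrifty h ∧ (Fintype.card S : ℝ) ≤ (k : ℝ) ^ 20 *
        2 ^ (38 * h + 15 * √(h * Real.logb 2 k * Real.logb 2 (1 + Real.logb 2 k)))) ∧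
    (∀ h : ℕ, 2 ≤ h → ∀ ε : ℝ, 0 < ε → ∃ k₀ : ℕ, ∀ k : ℕ, k₀ ≤ k →
      ∃ (S : Type) (_ : Fintype S) (P : Program k S),
        P.Solves h ∧ P.IsThrifty h ∧ (Fintype.card S : ℝ) ≤ (k : ℝ) ^ (5 + ε)) ∧
    (∀ h k : ℕ, 2 ≤ h → 2 ≤ k → ∀ (S : Type) [Fintype S] (P : Program k S),
      P.IsDeterministic → P.Solves h → P.IsThrifty h → k ^ h ≤ Fintype.card S) := by
  refine ⟨fun h k hh hk => ?_, fun h hh ε hε => ?_, fun h k hh hk S _ P h1 h2 h3 =>
    deterministic_lower_bound hh hk h1 h2 h3⟩
  · obtain ⟨S, iS, P, h1, h2, h3⟩ := all_heights (show 1 ≤ h by omega) hk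
      ⌊√(Real.logb 2 k * Real.logb 2 (1 + Real.logb 2 k) / h)⌋₊
    refine ⟨S, iS, P, h1, h2, le_trans ?_ (real_estimate (show 1 ≤ h by omega) hk rfl rfl rfl rfl)⟩
    exact_mod_cast h3
  · obtain ⟨q, hq⟩ := exists_nat_gt (2 / ε)
    have hq0 : (0 : ℝ) < q := lt_trans (by positivity) hq
    have hq1 : 1 ≤ q := by
      rcases Nat.eq_zero_or_pos q with h0 | h0
      · subst h0
        simp at hq0
      · exact h0
    have hqε : 2 ≤ ε * q := by
      rw [div_lt_iff₀ hε] at hq
      linarith
    obtain ⟨C, hC⟩ := fixed_height (show 1 ≤ h by omega) hq1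
    refine ⟨max C 2, fun k hk => ?_⟩
    have hk2 : 2 ≤ k := le_trans (le_max_right _ _) hk
    have hkC : C ≤ k := le_trans (le_max_left _ _) hk
    obtain ⟨S, iS, P, h1, h2, h3⟩ := hC k hk2
    refine ⟨S, iS, P, h1, h2, ?_⟩
    have hk1 : (1 : ℝ) ≤ k := by exact_mod_cast (show 1 ≤ k by omega)
    have h4 : Fintype.card S ^ q ≤ k ^ (5 * q + 2) := by
      calc Fintype.card S ^ q ≤ C * k ^ (5 * q + 1) := h3
        _ ≤ k * k ^ (5 * q + 1) := Nat.mul_le_mul_right _ hkC
        _ = k ^ (5 * q + 2) := by ring
    have h5 : (Fintype.card S : ℝ) ^ q ≤ ((k : ℝ) ^ (5 + ε)) ^ q := by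
      calc (Fintype.card S : ℝ) ^ q ≤ (k : ℝ) ^ (5 * q + 2) := by exact_mod_cast h4
        _ = (k : ℝ) ^ ((5 * q + 2 : ℕ) : ℝ) := (Real.rpow_natCast _ _).symm
        _ ≤ (k : ℝ) ^ ((5 + ε) * q) := by
            refine Real.rpow_le_rpow_of_exponent_le hk1 ?_
            push_cast
            linarith
        _ = ((k : ℝ) ^ (5 + ε)) ^ q := Real.rpow_mul_natCast (by linarith) _ _
    exact le_of_pow_le_pow_left₀ (by omega) (Real.rpow_nonneg (by linarith) _) h5

end Pool.Agent.Results.MP_994c82_lc.ThriftyTreeEvaluation
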